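import Mathlib

/-!
Interface between the construction side (Pool/Agent/BIN) and the problem side (Pool/Agent/BINQ)
of MP_ab7cc8_co.
-/

namespace Bq

/-- one exchange between two neighbouring bins; bins are unordered pairs -/
inductive Swp {α : Type} : List (Sym2 α) → List (Sym2 α) → Prop
  | mk (A B : List (Sym2 α)) (p x q z : α) :
      Swp (A ++ s(p, x) :: s(q, z) :: B) (A ++ s(x, q) :: s(p, z) :: B)

/-- `Reach N S S'`: `N` exchanges lead from `S` to `S'` -/
inductive Reach {α : Type} : ℕ → List (Sym2 α) → List (Sym2 α) → Prop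
  | refl (S : List (Sym2 α)) : Reach 0 S S
  | step {N : ℕ} {S S' S'' : List (Sym2 α)} :
      Swp S S' → Reach N S' S'' → Reach (N + 1) S S''

/-- the reversed configuration with `n` bins, labels `0, …, n-1` -/
def revBins (n : ℕ) : List (Sym2 ℕ) := (List.range n).reverse.map (fun k => s(k, k))

/-- the sorted configuration with `n` bins -/
def sortedBins (n : ℕ) : List (Sym2 ℕ) := (List.range n).map (fun k => s(k, k))

/-- the construction side: the reversed configuration is sorted by `⌈C(2n,2)/3⌉` exchanges -/
def T_CONSTR : Prop :=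
  ∀ n, 2 ≤ n → n ≠ 6 → Reach ((Nat.choose (2 * n) 2 + 2) / 3) (revBins n) (sortedBins n)

/-- six bins are sorted by 23 exchanges -/
def T_SIX23 : Prop := Reach 23 (revBins 6) (sortedBins 6)

end Bq
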