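import Pool.Agent.BINQ.Iface

/-!
Definitions for MP_ab7cc8_co: sorting two balls per bin.
-/

namespace Bq

/-- A configuration of `n` bins: the place `(i, s)` (place `s` of bin `i`) holds a ball, the label
of which is `lab (i, s)`; every label is carried by exactly two balls. -/
structure Config (n : ℕ) where
  /-- the label of the ball in a place -/
  lab : Fin n × Fin 2 → Fin n
  /-- every label is carried by exactly two balls -/
  two : ∀ k : Fin n, (Finset.univ.filter (fun p => lab p = k)).card = 2

/-- A move exchanges one ball of a bin with one ball of the next bin. -/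
def Move {n : ℕ} (c d : Config n) : Prop :=
  ∃ (i j : Fin n) (s t : Fin 2), (j : ℕ) = (i : ℕ) + 1 ∧
    ∀ p, d.lab p = c.lab (Equiv.swap (i, s) (j, t) p)

/-- `Moves N c d`: the configuration `d` is reached from `c` by exactly `N` moves. -/
inductive Moves {n : ℕ} : ℕ → Config n → Config n → Prop
  | refl (c : Config n) : Moves 0 c c
  | step {N : ℕ} {c d e : Config n} : Move c d → Moves N d e → Moves (N + 1) c e

/-- A configuration is sorted when bin `k` holds both balls labelled `k`. -/
def IsSorted {n : ℕ} (c : Config n) : Prop := ∀ p : Fin n × Fin 2, c.lab p = p.1

/-- The least number of moves which turn `c` into the sorted configuration. -/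
noncomputable def sortNum {n : ℕ} (c : Config n) : ℕ :=
  sInf {N | ∃ d, Moves N c d ∧ IsSorted d}

/-- The largest value of `sortNum` over all configurations with `n` bins. -/
noncomputable def f2 (n : ℕ) : ℕ := sSup {m | ∃ c : Config n, m = sortNum c}

/-- the bins of a configuration, as a list of unordered pairs of labels -/
def toBins {n : ℕ} (c : Config n) : List (Sym2 ℕ) :=
  List.ofFn (fun i : Fin n => s((c.lab (i, 0) : ℕ), (c.lab (i, 1) : ℕ)))

@[ext] theorem Config.ext' {n : ℕ} {c d : Config n} (h : ∀ p, c.lab p = d.lab p) : c = d := by
  cases c; cases d; simp only [Config.mk.injEq]; exact funext h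

/-- the configuration obtained by permuting the places -/
def Config.perm {n : ℕ} (c : Config n) (e : Equiv.Perm (Fin n × Fin 2)) : Config n where
  lab := fun p => c.lab (e p)
  two := by
    intro k
    refine Eq.trans ?_ (c.two k)
    refine Finset.card_bij (fun p _ => e p) ?_ ?_ ?_
    · intro p hp
      simpa using hp
    · intro p _ q _ h
      exact e.injective h
    · intro q hq
      exact ⟨e.symm q, by simpa using hq, by simp⟩

/-- the reversed configuration -/
def revConfig (n : ℕ) : Config n where
  lab := fun p => Fin.rev p.1
  two := by
    intro k
    have : (Finset.univ.filter (fun p : Fin n × Fin 2 => Fin.rev p.1 = k))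
        = ({Fin.rev k} : Finset (Fin n)) ×ˢ (Finset.univ : Finset (Fin 2)) := by
      ext p
      simp only [Finset.mem_filter, Finset.mem_univ, true_and, Finset.mem_product,
        Finset.mem_singleton, and_true]
      constructor
      · rintro rfl; simp
      · intro h; rw [h]; simp
    rw [this, Finset.card_product]
    simp

/-- the sorted configuration -/
def sortedConfig (n : ℕ) : Config n where
  lab := fun p => p.1
  two := by
    intro k
    have : (Finset.univ.filter (fun p : Fin n × Fin 2 => p.1 = k))
        = ({k} : Finset (Fin n)) ×ˢ (Finset.univ : Finset (Fin 2)) := by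
      ext p
      simp only [Finset.mem_filter, Finset.mem_univ, true_and, Finset.mem_product,
        Finset.mem_singleton, and_true]
    rw [this, Finset.card_product]
    simp

theorem isSorted_sortedConfig (n : ℕ) : IsSorted (sortedConfig n) := fun _ => rfl

theorem toBins_length {n : ℕ} (c : Config n) : (toBins c).length = n := by
  simp [toBins]

end Bq
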