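import Pool.Agent.BINQ.Transfer

/-!
The reversed and the sorted configuration are extreme for the profiles.
-/

namespace Bq

theorem toBins_revConfig (n : ℕ) : toBins (revConfig n) = revBins n := by
  apply List.ext_getElem
  · simp [toBins, revBins]
  · intro m h1 h2
    have hm : m < n := by simpa [toBins_length] using h1
    rw [toBins_getElem]
    simp only [revBins, revConfig, List.getElem_map, List.getElem_reverse, List.length_range,
      List.getElem_range, Fin.val_rev]
    have : n - (m + 1) = n - 1 - m := by omega
    rw [this]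

theorem toBins_sortedConfig (n : ℕ) : toBins (sortedConfig n) = sortedBins n := by
  apply List.ext_getElem
  · simp [toBins, sortedBins]
  · intro m h1 h2
    rw [toBins_getElem]
    simp [sortedBins, sortedConfig]

theorem prof_succ (L : List (Sym2 ℕ)) (k i : ℕ) (h : i < L.length) :
    prof L k (i + 1) = prof L k i + cnt k L[i] := by
  unfold prof
  rw [← List.take_concat_get' L i h, List.map_append, List.sum_append]
  simp

theorem prof_of_length_le (L : List (Sym2 ℕ)) (k i : ℕ) (h : L.length ≤ i) :
    prof L k i = prof L k L.length := by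
  unfold prof
  rw [List.take_of_length_le h, List.take_length]

theorem cnt_le (k : ℕ) (z : Sym2 ℕ) : cnt k z ≤ 2 := by
  induction z with
  | _ a b =>
    have := ind_le k a
    have := ind_le k b
    simp only [cnt_mk]; omega

theorem prof_le_two_mul (L : List (Sym2 ℕ)) (k i : ℕ) : prof L k i ≤ 2 * i := by
  induction i with
  | zero => simp
  | succ i ih =>
    rcases Nat.lt_or_ge i L.length with h | h
    · rw [prof_succ L k i h]
      have := cnt_le k L[i]
      omega
    · rw [prof_of_length_le L k (i + 1) (by omega)]
      rw [prof_of_length_le L k i h] at ih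
      omega

theorem prof_mono (L : List (Sym2 ℕ)) (k : ℕ) : Monotone (prof L k) := by
  apply monotone_nat_of_le_succ
  intro i
  rcases Nat.lt_or_ge i L.length with h | h
  · rw [prof_succ L k i h]; omega
  · rw [prof_of_length_le L k (i + 1) (by omega), prof_of_length_le L k i h]

/-- total number of labels `≥ k` in a configuration -/
theorem prof_total {n : ℕ} (c : Config n) (k : ℕ) :
    prof (toBins c) k n = ∑ l : Fin n, 2 * ind k l := by
  have h1 : prof (toBins c) k n = ∑ i : Fin n, (ind k (c.lab (i, 0)) + ind k (c.lab (i, 1))) := by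
    unfold prof
    rw [List.take_of_length_le (by rw [toBins_length])]
    simp only [toBins, List.map_ofFn, List.sum_ofFn, Function.comp, cnt_mk]
  have h2 : ∑ i : Fin n, (ind k (c.lab (i, 0)) + ind k (c.lab (i, 1)))
      = ∑ p : Fin n × Fin 2, ind k (c.lab p) := by
    rw [Fintype.sum_prod_type]
    refine Finset.sum_congr rfl ?_
    intro i _
    rw [Fin.sum_univ_two]
  rw [h1, h2, ← Finset.sum_fiberwise (s := Finset.univ) (g := c.lab)]
  refine Finset.sum_congr rfl ?_
  intro l _
  rw [Finset.sum_congr rfl (g := fun _ => ind k l)]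
  · rw [Finset.sum_const, c.two l]; simp
  · intro p hp
    rw [(Finset.mem_filter.mp hp).2]

theorem prof_total_le {n : ℕ} (c : Config n) (k : ℕ) : prof (toBins c) k n ≤ 2 * (n - k) := by
  rw [prof_total, ← Finset.mul_sum]
  refine Nat.mul_le_mul_left 2 ?_
  have : ∑ l : Fin n, ind k l = ∑ l ∈ Finset.range n, ind k l := by
    rw [← Fin.sum_univ_eq_sum_range]
  rw [this]
  clear this c
  induction n with
  | zero => simp
  | succ n ih =>
    rw [Finset.sum_range_succ]
    unfold ind at *
    split_ifs with h <;> omega

theorem prof_revBins {n : ℕ} (k i : ℕ) (h : i ≤ n) :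
    prof (revBins n) k i = 2 * min i (n - k) := by
  induction i with
  | zero => simp
  | succ i ih =>
    have hl : i < (revBins n).length := by simp [revBins]; omega
    rw [prof_succ _ _ _ hl, ih (by omega)]
    have : (revBins n)[i] = s(n - 1 - i, n - 1 - i) := by
      simp [revBins]
    rw [this, cnt_mk]
    unfold ind
    split_ifs with h1 <;> omega

theorem prof_sortedBins {n : ℕ} (k i : ℕ) (h : i ≤ n) :
    prof (sortedBins n) k i = 2 * (i - k) := by
  induction i with
  | zero => simp
  | succ i ih =>
    have hl : i < (sortedBins n).length := by simp [sortedBins]; omega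
    rw [prof_succ _ _ _ hl, ih (by omega)]
    have : (sortedBins n)[i] = s(i, i) := by
      simp [sortedBins]
    rw [this, cnt_mk]
    unfold ind
    split_ifs with h1 <;> omega

/-- every configuration is dominated by the reversed one -/
theorem dom_revBins {n : ℕ} (c : Config n) : Dom (toBins c) (revBins n) := by
  have hl : (revBins n).length = n := by simp [revBins]
  refine ⟨by rw [toBins_length, hl], ?_⟩
  have main : ∀ k i, i ≤ n → prof (toBins c) k i ≤ prof (revBins n) k i := by
    intro k i hi
    rw [prof_revBins k i hi]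
    have h1 := prof_le_two_mul (toBins c) k i
    have h2 := prof_mono (toBins c) k hi
    have h3 := prof_total_le c k
    omega
  intro k i
  rcases Nat.le_total i n with hi | hi
  · exact main k i hi
  · rw [prof_of_length_le _ k i (by rw [toBins_length]; exact hi),
      prof_of_length_le (revBins n) k i (by rw [hl]; exact hi), toBins_length, hl]
    exact main k n le_rfl

/-- a configuration dominated by the sorted one is sorted -/
theorem sorted_of_dom {n : ℕ} (d : Config n) (h : Dom (toBins d) (sortedBins n)) :
    IsSorted d := by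
  have hle : ∀ p : Fin n × Fin 2, (d.lab p : ℕ) ≤ (p.1 : ℕ) := by
    rintro ⟨j, s⟩
    by_contra hcon
    push Not at hcon
    have h1 := h.2 (j + 1) (j + 1)
    rw [prof_sortedBins _ _ (by have := j.2; omega), prof_succ _ _ _ (by
      rw [toBins_length]; exact j.2), toBins_getElem, cnt_mk] at h1
    have hh : ind ((j : ℕ) + 1) (d.lab (j, s)) = 1 := by
      unfold ind
      rw [if_pos (by simpa using hcon)]
    have : ∀ r : Fin 2, ind ((j : ℕ) + 1) (d.lab (j, r)) ≤
        ind ((j : ℕ) + 1) (d.lab (j, 0)) + ind ((j : ℕ) + 1) (d.lab (j, 1)) := by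
      intro r
      fin_cases r <;> simp
    have h2 := this s
    have h3 : (⟨(j : ℕ), j.2⟩ : Fin n) = j := rfl
    rw [h3] at h1
    omega
  have hsum : ∑ p : Fin n × Fin 2, (d.lab p : ℕ) = ∑ p : Fin n × Fin 2, (p.1 : ℕ) := by
    have gen : ∀ c : Config n, ∑ p : Fin n × Fin 2, (c.lab p : ℕ) = ∑ l : Fin n, 2 * (l : ℕ) := by
      intro c
      rw [← Finset.sum_fiberwise (s := Finset.univ) (g := c.lab)]
      refine Finset.sum_congr rfl ?_
      intro l _
      rw [Finset.sum_congr rfl (g := fun _ => (l : ℕ))]
      · rw [Finset.sum_const, c.two l]; simp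
      · intro p hp
        rw [(Finset.mem_filter.mp hp).2]
    rw [gen d, ← gen (sortedConfig n)]
    rfl
  have heq := (Finset.sum_eq_sum_iff_of_le (fun p _ => hle p)).mp hsum
  intro p
  exact Fin.ext (heq p (Finset.mem_univ p))

theorem eq_sortedConfig {n : ℕ} {d : Config n} (h : IsSorted d) : d = sortedConfig n :=
  Config.ext' (fun p => h p)

/-- the reversed configuration is a worst case -/
theorem worst_case {n N : ℕ} (h : Reach N (revBins n) (sortedBins n)) (c : Config n) :
    ∃ M d, M ≤ N ∧ Moves M c d ∧ IsSorted d := by
  obtain ⟨M, L', h1, h2, h3⟩ := dom_reach h (toBins c) (dom_revBins c)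
  obtain ⟨d, h4, h5⟩ := exists_moves h2 c rfl
  subst h5
  exact ⟨M, d, h1, h4, sorted_of_dom d h3⟩

end Bq
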