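import Pool.Agent.BINQ.Iface

/-!
Six bins are sorted by 23 exchanges.
-/

namespace Bq

/-- exchange of the larger label of bin `i` and the smaller label of bin `i+1` -/
def xch : List (ℕ × ℕ) → ℕ → List (ℕ × ℕ)
  | (c, a) :: (b, d) :: t, 0 => (min c b, max c b) :: (min a d, max a d) :: t
  | x :: t, i + 1 => x :: xch t i
  | l, _ => l

/-- the unordered pair -/
def toS (x : ℕ × ℕ) : Sym2 ℕ := s(x.1, x.2)

theorem toS_minmax (a b : ℕ) : toS (min a b, max a b) = s(a, b) := by
  unfold toS
  rcases Nat.le_total a b with h | h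
  · simp [h]
  · simp [h, Sym2.eq_swap]

theorem Swp.cons {α : Type} {L L' : List (Sym2 α)} (y : Sym2 α) (h : Swp L L') :
    Swp (y :: L) (y :: L') := by
  obtain ⟨A, B, p, x, q, z⟩ := h
  exact Swp.mk (y :: A) B p x q z

theorem xch_length (l : List (ℕ × ℕ)) (i : ℕ) : (xch l i).length = l.length := by
  induction l generalizing i with
  | nil => rfl
  | cons x t ih =>
    rcases i with _ | i
    · rcases t with _ | ⟨y, t⟩
      · rfl
      · rfl
    · simp [xch, ih]

theorem xch_swp (l : List (ℕ × ℕ)) (i : ℕ) (h : i + 1 < l.length) :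
    Swp (l.map toS) ((xch l i).map toS) := by
  induction l generalizing i with
  | nil => simp at h
  | cons x t ih =>
    rcases i with _ | i
    · rcases t with _ | ⟨y, t⟩
      · simp at h
      · obtain ⟨c, a⟩ := x
        obtain ⟨b, d⟩ := y
        simp only [xch, List.map_cons, toS_minmax]
        have := Swp.mk [] (t.map toS) a c b d
        rw [List.nil_append, List.nil_append, Sym2.eq_swap (a := a) (b := c)] at this
        exact this
    · simp only [xch, List.map_cons]
      exact Swp.cons _ (ih i (by simpa using h))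

theorem xch_reach (w : List ℕ) (l : List (ℕ × ℕ)) (h : ∀ i ∈ w, i + 1 < l.length) :
    Reach w.length (l.map toS) ((w.foldl xch l).map toS) := by
  induction w generalizing l with
  | nil => exact Reach.refl _
  | cons i w ih =>
    simp only [List.foldl_cons, List.length_cons]
    refine Reach.step (xch_swp l i (h i (by simp))) (ih (xch l i) ?_)
    intro j hj
    rw [xch_length]
    exact h j (by simp [hj])

theorem six23 : T_SIX23 := by
  have h := xch_reach [0, 0, 1, 2, 1, 0, 2, 3, 4, 3, 2, 1, 0, 2, 1, 4, 3, 2, 1, 0, 3, 2, 1]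
    [(5, 5), (4, 4), (3, 3), (2, 2), (1, 1), (0, 0)] (by decide)
  exact h

end Bq
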