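import Pool.Agent.BINQ.SixLow
import Pool.Agent.BINQ.SixUp

/-!
The final theorem, from the construction side.
-/

namespace Bq

/-- the value -/
def val (n : ℕ) : ℕ :=
  if n = 1 then 0 else if n = 6 then 23 else (Nat.choose (2 * n) 2 + 2) / 3

theorem reach_val (h : T_CONSTR) {n : ℕ} (hn : 2 ≤ n) :
    Reach (val n) (revBins n) (sortedBins n) := by
  unfold val
  rw [if_neg (by omega)]
  split_ifs with h6
  · subst h6; exact six23
  · exact h n hn h6

theorem val_le {n : ℕ} (hn : 2 ≤ n) {N : ℕ} (h : Reach N (revBins n) (sortedBins n)) :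
    val n ≤ N := by
  unfold val
  rw [if_neg (by omega)]
  split_ifs with h6
  · subst h6; exact six_lower h
  · exact lower_bound hn h

theorem sorted_one (c : Config 1) : IsSorted c := fun _ => Subsingleton.elim _ _

theorem exists_sort (h : T_CONSTR) {n : ℕ} (hn : 1 ≤ n) (c : Config n) :
    ∃ N d, N ≤ val n ∧ Moves N c d ∧ IsSorted d := by
  rcases Nat.lt_or_ge n 2 with h1 | h1
  · have : n = 1 := by omega
    subst this
    exact ⟨0, c, Nat.zero_le _, Moves.refl c, sorted_one c⟩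
  · exact worst_case (reach_val h h1) c

theorem sortNum_le (h : T_CONSTR) {n : ℕ} (hn : 1 ≤ n) (c : Config n) : sortNum c ≤ val n := by
  obtain ⟨N, d, h1, h2, h3⟩ := exists_sort h hn c
  have hmem : N ∈ {N | ∃ d, Moves N c d ∧ IsSorted d} := ⟨d, h2, h3⟩
  exact (Nat.sInf_le hmem).trans h1

theorem sortNum_spec (h : T_CONSTR) {n : ℕ} (hn : 1 ≤ n) (c : Config n) :
    ∃ d, Moves (sortNum c) c d ∧ IsSorted d := by
  obtain ⟨N, d, _, h2, h3⟩ := exists_sort h hn c
  have hne : {N | ∃ d, Moves N c d ∧ IsSorted d}.Nonempty := ⟨N, d, h2, h3⟩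
  exact Nat.sInf_mem hne

theorem sortNum_rev (h : T_CONSTR) {n : ℕ} (hn : 1 ≤ n) : sortNum (revConfig n) = val n := by
  refine le_antisymm (sortNum_le h hn _) ?_
  rcases Nat.lt_or_ge n 2 with h1 | h1
  · have : n = 1 := by omega
    subst this
    exact Nat.zero_le _
  · obtain ⟨d, h2, h3⟩ := sortNum_spec h hn (revConfig n)
    have h4 := h2.reach
    rw [toBins_revConfig, eq_sortedConfig h3, toBins_sortedConfig] at h4
    exact val_le h1 h4

theorem f2_eq (h : T_CONSTR) {n : ℕ} (hn : 1 ≤ n) : f2 n = val n := by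
  have hg : IsGreatest {m | ∃ c : Config n, m = sortNum c} (val n) := by
    refine ⟨⟨revConfig n, (sortNum_rev h hn).symm⟩, ?_⟩
    rintro m ⟨c, rfl⟩
    exact sortNum_le h hn c
  exact hg.csSup_eq

/-- The full answer, from the construction side. -/
theorem main_of (h : T_CONSTR) (n : ℕ) (hn : 1 ≤ n) :
    f2 n = (if n = 1 then 0 else if n = 6 then 23 else ⌈(Nat.choose (2 * n) 2 : ℚ) / 3⌉₊) ∧
      (∀ c : Config n, (∃ d, Moves (sortNum c) c d ∧ IsSorted d) ∧ sortNum c ≤ f2 n) ∧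
      (∃ c : Config n, sortNum c = f2 n) := by
  have hceil : ⌈(Nat.choose (2 * n) 2 : ℚ) / 3⌉₊ = (Nat.choose (2 * n) 2 + 2) / 3 := by
    generalize Nat.choose (2 * n) 2 = a
    apply le_antisymm
    · apply Nat.ceil_le.mpr
      rw [div_le_iff₀ (by norm_num)]
      have : a ≤ (a + 2) / 3 * 3 := by omega
      exact_mod_cast this
    · have h1 := Nat.le_ceil ((a : ℚ) / 3)
      rw [div_le_iff₀ (by norm_num)] at h1
      have h2 : a ≤ ⌈(a : ℚ) / 3⌉₊ * 3 := by exact_mod_cast h1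
      omega
  rw [f2_eq h hn, hceil]
  refine ⟨rfl, ?_, ⟨revConfig n, sortNum_rev h hn⟩⟩
  intro c
  exact ⟨sortNum_spec h hn c, sortNum_le h hn c⟩

end Bq
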