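import Pool.Agent.BINQ.Ends

/-!
The potential of a list of bins: every exchange raises it by at most 6.
-/

namespace Bq

/-- potential of an ordered pair of labels, the first one in a bin further left -/
def pr (a b : ℕ) : ℤ := if a < b then 2 else if b < a then 0 else 1

/-- potential of a label and a bin further right -/
def fel (a : ℕ) (z : Sym2 ℕ) : ℤ :=
  Sym2.lift ⟨fun c d => pr a c + pr a d, fun _ _ => add_comm _ _⟩ z

@[simp] theorem fel_mk (a c d : ℕ) : fel a s(c, d) = pr a c + pr a d := rfl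

/-- potential of two bins -/
def fpot (y z : Sym2 ℕ) : ℤ :=
  Sym2.lift ⟨fun a b => fel a z + fel b z, fun _ _ => add_comm _ _⟩ y

@[simp] theorem fpot_mk (a b : ℕ) (z : Sym2 ℕ) : fpot s(a, b) z = fel a z + fel b z := rfl

/-- inner potential of a touched bin -/
def ebin (y : Sym2 ℕ) : ℤ :=
  Sym2.lift ⟨fun a b => if a = b then (2 : ℤ) else 1, fun a b => by simp [eq_comm]⟩ y

@[simp] theorem ebin_mk (a b : ℕ) : ebin s(a, b) = if a = b then (2 : ℤ) else 1 := rfl

/-- inner potential of a bin; the flag says that the bin is still untouched -/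
def hpot (y : Sym2 ℕ × Bool) : ℤ := if y.2 then 0 else ebin y.1

/-- sum of the potentials of a bin and the bins of a list -/
def fsum (y : Sym2 ℕ) (L : List (Sym2 ℕ × Bool)) : ℤ := (L.map (fun z => fpot y z.1)).sum

/-- the potential -/
def pot : List (Sym2 ℕ × Bool) → ℤ
  | [] => 0
  | y :: L => hpot y + fsum y.1 L + pot L

/-- exchange of two balls of adjacent bins, in the list with flags, at a given index -/
inductive FSwp : ℕ → List (Sym2 ℕ × Bool) → List (Sym2 ℕ × Bool) → Prop
  | mk (A B : List (Sym2 ℕ × Bool)) (p x q z : ℕ) (f g : Bool) :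
      FSwp A.length (A ++ (s(p, x), f) :: (s(q, z), g) :: B)
        (A ++ (s(x, q), false) :: (s(p, z), false) :: B)

/-- a run of exchanges -/
inductive FRun : List ℕ → List (Sym2 ℕ × Bool) → List (Sym2 ℕ × Bool) → Prop
  | nil (L) : FRun [] L L
  | cons {i w L L' L''} : FSwp i L L' → FRun w L' L'' → FRun (i :: w) L L''

/-- untouched bins hold two balls with the same label -/
def Good (L : List (Sym2 ℕ × Bool)) : Prop := ∀ y ∈ L, y.2 = true → ∃ a, y.1 = s(a, a)

theorem swp_lift {M M' : List (Sym2 ℕ)} (h : Swp M M') :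
    ∀ L : List (Sym2 ℕ × Bool), L.map Prod.fst = M →
      ∃ i L', FSwp i L L' ∧ L'.map Prod.fst = M' := by
  obtain ⟨A, B, p, x, q, z⟩ := h
  intro L hL
  obtain ⟨A', C, rfl, hA, hC⟩ := List.map_eq_append_iff.mp hL
  obtain ⟨y, C', rfl, hy, hC'⟩ := List.map_eq_cons_iff.mp hC
  obtain ⟨y', B', rfl, hy', hB⟩ := List.map_eq_cons_iff.mp hC'
  obtain ⟨y1, f⟩ := y
  obtain ⟨y2, g⟩ := y'
  simp only at hy hy'
  subst hy; subst hy'; subst hA; subst hB
  exact ⟨_, _, FSwp.mk A' B' p x q z f g, by simp⟩

theorem reach_lift {N : ℕ} {M M' : List (Sym2 ℕ)} (h : Reach N M M') :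
    ∀ L : List (Sym2 ℕ × Bool), L.map Prod.fst = M →
      ∃ w L', w.length = N ∧ FRun w L L' ∧ L'.map Prod.fst = M' := by
  induction h with
  | refl S => intro L hL; exact ⟨[], L, rfl, FRun.nil L, hL⟩
  | step h1 _ ih =>
    intro L hL
    obtain ⟨i, L1, h2, h3⟩ := swp_lift h1 L hL
    obtain ⟨w, L2, h4, h5, h6⟩ := ih L1 h3
    exact ⟨i :: w, L2, by simp [h4], FRun.cons h2 h5, h6⟩

theorem fsum_append (y : Sym2 ℕ) (A B : List (Sym2 ℕ × Bool)) :
    fsum y (A ++ B) = fsum y A + fsum y B := by
  simp [fsum]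

theorem fsum_cons (y : Sym2 ℕ) (z : Sym2 ℕ × Bool) (B : List (Sym2 ℕ × Bool)) :
    fsum y (z :: B) = fpot y z.1 + fsum y B := by
  simp [fsum]

/-- exchange on the right of a bin -/
theorem fpot_right (y : Sym2 ℕ) (p x q z : ℕ) :
    fpot y s(p, x) + fpot y s(q, z) = fpot y s(x, q) + fpot y s(p, z) := by
  induction y with
  | _ a b =>
    simp only [fpot_mk, fel_mk]; ring

/-- exchange on the left of a list -/
theorem fsum_left (B : List (Sym2 ℕ × Bool)) (p x q z : ℕ) :
    fsum s(p, x) B + fsum s(q, z) B = fsum s(x, q) B + fsum s(p, z) B := by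
  induction B with
  | nil => simp [fsum]
  | cons y B ih =>
    simp only [fsum_cons, fpot_mk]
    linarith

/-- the gain of an exchange -/
theorem pot_exchange (A B : List (Sym2 ℕ × Bool)) (p x q z : ℕ) (f g : Bool) :
    pot (A ++ (s(x, q), false) :: (s(p, z), false) :: B) -
      pot (A ++ (s(p, x), f) :: (s(q, z), g) :: B) =
    (pr x p - hpot (s(p, x), f)) + (pr q z - hpot (s(q, z), g)) +
      (ebin s(x, q) - pr x q) + (ebin s(p, z) - pr p z) + (pr q p - pr p q) := by
  induction A with
  | nil =>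
    have h1 := fsum_left B p x q z
    simp only [List.nil_append, pot, fsum_cons, fpot_mk, fel_mk]
    have h2 : hpot (s(x, q), false) = ebin s(x, q) := rfl
    have h3 : hpot (s(p, z), false) = ebin s(p, z) := rfl
    rw [h2, h3]
    linarith
  | cons y A ih =>
    simp only [List.cons_append, pot, fsum_append, fsum_cons]
    have h1 := fpot_right y.1 p x q z
    linarith

theorem term1 (p x : ℕ) (f : Bool) (h : f = true → p = x) :
    pr x p - hpot (s(p, x), f) ≤ 1 ∧
      (pr x p - hpot (s(p, x), f) = 1 → (x < p ∨ (f = true ∧ x = p))) := by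
  cases f with
  | false =>
    simp only [hpot, pr, ebin_mk]
    constructor
    · split_ifs <;> simp_all
    · intro h1
      left
      by_contra hc
      revert h1
      split_ifs <;> simp_all
  | true =>
    have := h rfl
    subst this
    simp [hpot, pr]

theorem term2 (a b : ℕ) :
    ebin s(a, b) - pr a b ≤ 1 ∧ (ebin s(a, b) - pr a b = 1 → b ≤ a) := by
  simp only [pr, ebin_mk]
  constructor
  · split_ifs <;> omega
  · intro h1
    by_contra hc
    revert h1
    split_ifs <;> omega

theorem term3 (a b : ℕ) : pr a b - pr b a ≤ 2 ∧ (pr a b - pr b a = 2 → a < b) := by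
  simp only [pr]
  constructor
  · split_ifs <;> omega
  · intro h1
    by_contra hc
    revert h1
    split_ifs <;> omega

theorem good_swp {i : ℕ} {L L' : List (Sym2 ℕ × Bool)} (h : FSwp i L L') (hg : Good L) :
    Good L' := by
  obtain ⟨A, B, p, x, q, z, f, g⟩ := h
  intro y hy hf
  simp only [List.mem_append, List.mem_cons] at hy
  rcases hy with hy | hy | hy | hy
  · exact hg y (by simp [hy]) hf
  · subst hy; simp at hf
  · subst hy; simp at hf
  · exact hg y (by simp [hy]) hf

/-- the gain is at most 6, and if it is 6 the exchange is perfect -/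
theorem pot_swp {i : ℕ} {L L' : List (Sym2 ℕ × Bool)} (h : FSwp i L L') (hg : Good L) :
    pot L' ≤ pot L + 6 := by
  obtain ⟨A, B, p, x, q, z, f, g⟩ := h
  have e := pot_exchange A B p x q z f g
  have h1 := term1 p x f (by
    intro hf
    obtain ⟨a, ha⟩ := hg (s(p, x), f) (by simp) hf
    rcases Sym2.eq_iff.mp ha with ⟨h1, h2⟩ | ⟨h1, h2⟩ <;> rw [h1, h2])
  have h2 := term1 z q g (by
    intro hf
    obtain ⟨a, ha⟩ := hg (s(q, z), g) (by simp) hf
    rcases Sym2.eq_iff.mp ha with ⟨h1, h2⟩ | ⟨h1, h2⟩ <;> rw [h1, h2])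
  rw [Sym2.eq_swap] at h2
  have h3 := term2 x q
  have h4 := term2 p z
  have h5 := term3 q p
  linarith [h1.1, h2.1, h3.1, h4.1, h5.1]

theorem good_run {w : List ℕ} {L L' : List (Sym2 ℕ × Bool)} (h : FRun w L L') :
    Good L → Good L' := by
  induction h with
  | nil L => exact id
  | cons h1 _ ih => intro hg; exact ih (good_swp h1 hg)

theorem pot_run {w : List ℕ} {L L' : List (Sym2 ℕ × Bool)} (h : FRun w L L') :
    Good L → pot L' ≤ pot L + 6 * w.length := by
  induction h with
  | nil L => intro _; simp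
  | cons h1 _ ih =>
    intro hg
    have h2 := pot_swp h1 hg
    have h3 := ih (good_swp h1 hg)
    push_cast [List.length_cons]
    linarith

end Bq
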