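import Pool.Agent.BINQ.Lower

/-!
Values of the potential at the reversed and the sorted configuration, and the lower bound.
-/

namespace Bq

/-- the reversed list of bins, all bins untouched -/
def revF (n : ℕ) : List (Sym2 ℕ × Bool) := (revBins n).map (fun y => (y, true))

theorem revF_fst (n : ℕ) : (revF n).map Prod.fst = revBins n := by
  simp [revF, Function.comp_def]

theorem revF_succ (n : ℕ) : revF (n + 1) = (s(n, n), true) :: revF n := by
  simp [revF, revBins, List.range_succ]

theorem good_revF (n : ℕ) : Good (revF n) := by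
  intro y hy _
  simp only [revF, revBins, List.map_map, List.mem_map, Function.comp] at hy
  obtain ⟨a, _, rfl⟩ := hy
  exact ⟨a, rfl⟩

theorem pot_revF (n : ℕ) : pot (revF n) = 0 := by
  have h : ∀ m n, n ≤ m → fsum s(m, m) (revF n) = 0 := by
    intro m n
    induction n with
    | zero => intro _; simp [revF, revBins, fsum]
    | succ n ih =>
      intro h
      rw [revF_succ, fsum_cons, ih (by omega)]
      simp only [fpot_mk, fel_mk, pr]
      have h1 : ¬ m < n := by omega
      have h2 : n < m := by omega
      simp [h1, h2]
  induction n with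
  | zero => simp [revF, revBins, pot]
  | succ n ih =>
    rw [revF_succ, pot, ih, h n n le_rfl]
    simp [hpot]

/-- the potential of a touched list of sorted bins -/
theorem pot_sorted (L : List (Sym2 ℕ × Bool)) : ∀ a m : ℕ,
    L.map Prod.fst = (List.range' a m).map (fun k => s(k, k)) →
    (∀ y ∈ L, y.2 = false) → pot L = 4 * m * m - 2 * m := by
  induction L with
  | nil =>
    intro a m h _
    have : m = 0 := by
      have := congrArg List.length h
      simpa using this.symm
    subst this
    simp [pot]
  | cons y L ih =>
    intro a m h hf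
    obtain ⟨m, rfl⟩ : ∃ k, m = k + 1 := by
      rcases m with _ | m
      · simp at h
      · exact ⟨m, rfl⟩
    rw [List.range'_succ] at h
    simp only [List.map_cons, List.cons.injEq] at h
    obtain ⟨h1, h2⟩ := h
    have h3 := ih (a + 1) m h2 (fun z hz => hf z (by simp [hz]))
    have h4 : fsum y.1 L = 8 * m := by
      have : fsum y.1 L = ((List.range' (a + 1) m).map (fun k => fpot y.1 s(k, k))).sum := by
        unfold fsum
        have : L.map (fun z => fpot y.1 z.1) = (L.map Prod.fst).map (fun z => fpot y.1 z) := by
          simp [Function.comp_def]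
        rw [this, h2, List.map_map]
        rfl
      rw [this, h1]
      have h5 : ∀ k ∈ List.range' (a + 1) m, fpot s(a, a) s(k, k) = 8 := by
        intro k hk
        have : a < k := by
          have := (List.mem_range'_1.mp hk).1
          omega
        simp only [fpot_mk, fel_mk, pr, this, if_true]
        norm_num
      rw [List.map_congr_left h5]
      simp [mul_comm]
    have h6 : hpot y = 2 := by
      have := hf y (by simp)
      simp [hpot, this, h1]
    rw [pot, h3, h4, h6]
    push_cast
    ring

/-- sum of the labels in the first `j` bins -/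
def tot (z : Sym2 ℕ) : ℕ := Sym2.lift ⟨fun a b => a + b, fun _ _ => Nat.add_comm _ _⟩ z

@[simp] theorem tot_mk (a b : ℕ) : tot s(a, b) = a + b := rfl

def ssum (L : List (Sym2 ℕ)) (j : ℕ) : ℕ := ((L.take j).map tot).sum

theorem ssum_succ (L : List (Sym2 ℕ)) (i : ℕ) (h : i < L.length) :
    ssum L (i + 1) = ssum L i + tot L[i] := by
  unfold ssum
  rw [← List.take_concat_get' L i h, List.map_append, List.sum_append]
  simp

theorem ssum_revBins {n : ℕ} (i : ℕ) (h : i ≤ n) :
    ssum (revBins n) i = ∑ m ∈ Finset.range i, 2 * (n - 1 - m) := by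
  induction i with
  | zero => simp [ssum]
  | succ i ih =>
    have hl : i < (revBins n).length := by simp [revBins]; omega
    rw [ssum_succ _ _ hl, ih (by omega), Finset.sum_range_succ]
    have : (revBins n)[i] = s(n - 1 - i, n - 1 - i) := by
      simp [revBins]
    rw [this, tot_mk]
    omega

theorem ssum_sortedBins {n : ℕ} (i : ℕ) (h : i ≤ n) :
    ssum (sortedBins n) i = ∑ m ∈ Finset.range i, 2 * m := by
  induction i with
  | zero => simp [ssum]
  | succ i ih =>
    have hl : i < (sortedBins n).length := by simp [sortedBins]; omega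
    rw [ssum_succ _ _ hl, ih (by omega), Finset.sum_range_succ]
    have : (sortedBins n)[i] = s(i, i) := by
      simp [sortedBins]
    rw [this, tot_mk]
    omega

theorem fswp_untouched {i : ℕ} {L L' : List (Sym2 ℕ × Bool)} (h : FSwp i L L') (j : ℕ)
    (y : Sym2 ℕ) (hj : L'[j]? = some (y, true)) :
    L[j]? = some (y, true) ∧ ssum (L.map Prod.fst) j = ssum (L'.map Prod.fst) j := by
  obtain ⟨A, B, p, x, q, z, f, g⟩ := h
  rcases Nat.lt_or_ge j A.length with h1 | h1
  · rw [List.getElem?_append_left h1] at hj
    refine ⟨by rw [List.getElem?_append_left h1]; exact hj, ?_⟩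
    unfold ssum
    simp only [List.map_append]
    rw [List.take_append_of_le_length (by simp; omega),
      List.take_append_of_le_length (by simp; omega)]
  · obtain ⟨k, rfl⟩ := Nat.exists_eq_add_of_le h1
    rw [List.getElem?_append_right (by omega)] at hj
    have hk : A.length + k - A.length = k := by omega
    rw [hk] at hj
    rcases k with _ | _ | k
    · simp at hj
    · simp at hj
    · refine ⟨?_, ?_⟩
      · rw [List.getElem?_append_right (by omega), hk]
        simpa using hj
      · unfold ssum
        simp only [List.map_append, List.map_cons]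
        have hlen : A.length = (A.map (Prod.fst (α := Sym2 ℕ) (β := Bool))).length := by simp
        rw [hlen, List.take_length_add_append, List.take_length_add_append]
        simp only [List.map_append, List.sum_append, List.take_succ_cons, List.map_cons,
          List.sum_cons, tot_mk]
        omega

theorem frun_untouched {w : List ℕ} {L L' : List (Sym2 ℕ × Bool)} (h : FRun w L L') (j : ℕ)
    (y : Sym2 ℕ) (hj : L'[j]? = some (y, true)) :
    L[j]? = some (y, true) ∧ ssum (L.map Prod.fst) j = ssum (L'.map Prod.fst) j := by
  induction h with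
  | nil L => exact ⟨hj, rfl⟩
  | cons h1 _ ih =>
    obtain ⟨h2, h3⟩ := ih hj
    obtain ⟨h4, h5⟩ := fswp_untouched h1 j y h2
    exact ⟨h4, h5.trans h3⟩

/-- at the end every bin has been touched -/
theorem all_touched {n : ℕ} (hn : 2 ≤ n) {w : List ℕ} {L' : List (Sym2 ℕ × Bool)}
    (h : FRun w (revF n) L') (hL' : L'.map Prod.fst = sortedBins n) :
    ∀ y ∈ L', y.2 = false := by
  intro y hy
  by_contra hc
  have hc' : y.2 = true := by simpa using hc
  obtain ⟨j, hj, hj'⟩ := List.getElem_of_mem hy
  have hlen : L'.length = n := by
    have := congrArg List.length hL'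
    simpa [sortedBins] using this
  have e1 : L'[j]? = some (y.1, true) := by
    rw [List.getElem?_eq_getElem hj, hj', ← hc']
  obtain ⟨h2, h3⟩ := frun_untouched h j y.1 e1
  rw [revF_fst, hL', ssum_revBins j (by omega), ssum_sortedBins j (by omega)] at h3
  -- the label of the bin
  have e2 : (L'.map Prod.fst)[j]? = some y.1 := by
    rw [List.getElem?_map, e1]; rfl
  have e3 : ((revF n).map Prod.fst)[j]? = some y.1 := by
    rw [List.getElem?_map, h2]; rfl
  rw [hL'] at e2
  rw [revF_fst] at e3
  have hjn : j < n := by omega
  have e4 : (sortedBins n)[j]? = some s(j, j) := by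
    simp [sortedBins, hjn]
  have e5 : (revBins n)[j]? = some s(n - 1 - j, n - 1 - j) := by
    rw [List.getElem?_eq_getElem (by simp [revBins]; omega)]
    simp [revBins]
  rw [e4] at e2
  rw [e5] at e3
  have e6 : s(j, j) = s(n - 1 - j, n - 1 - j) := by
    rw [Option.some.inj e2, Option.some.inj e3]
  have e7 : j = n - 1 - j := by
    rcases Sym2.eq_iff.mp e6 with ⟨h, _⟩ | ⟨h, _⟩ <;> exact h
  have hj1 : 1 ≤ j := by omega
  have hlt : ∑ m ∈ Finset.range j, 2 * m < ∑ m ∈ Finset.range j, 2 * (n - 1 - m) := by
    apply Finset.sum_lt_sum_of_nonempty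
    · exact Finset.nonempty_range_iff.mpr (by omega)
    · intro m hm
      have := Finset.mem_range.mp hm
      omega
  omega

/-- the potential of the final list -/
theorem pot_final {n : ℕ} (hn : 2 ≤ n) {w : List ℕ} {L' : List (Sym2 ℕ × Bool)}
    (h : FRun w (revF n) L') (hL' : L'.map Prod.fst = sortedBins n) :
    pot L' = 4 * n * n - 2 * n := by
  apply pot_sorted L' 0 n
  · rw [hL', sortedBins, List.range_eq_range']
  · exact all_touched hn h hL'

/-- the lower bound -/
theorem lower_bound {n N : ℕ} (hn : 2 ≤ n) (h : Reach N (revBins n) (sortedBins n)) :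
    (Nat.choose (2 * n) 2 + 2) / 3 ≤ N := by
  obtain ⟨w, L', h1, h2, h3⟩ := reach_lift h (revF n) (revF_fst n)
  have h4 := pot_run h2 (good_revF n)
  rw [pot_final hn h2 h3, pot_revF, h1] at h4
  have h5 : (2 * n).choose 2 = n * (2 * n - 1) := by
    rw [Nat.choose_two_right]
    have : 2 * n * (2 * n - 1) = 2 * (n * (2 * n - 1)) := by ring
    rw [this, Nat.mul_div_cancel_left _ (by norm_num)]
  have h6 : n * (2 * n - 1) ≤ 3 * N := by
    obtain ⟨k, rfl⟩ : ∃ k, n = k + 1 := ⟨n - 1, by omega⟩
    have : 2 * (k + 1) - 1 = 2 * k + 1 := by omega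
    rw [this]
    zify
    push_cast at h4
    nlinarith
  rw [h5]
  omega

end Bq
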