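import Mathlib

/-!
Exhaustive search for six bins: no word of 22 perfect exchanges.
-/

namespace Bq

/-- a bin: smaller label, larger label, untouched so far -/
abbrev NBin := ℕ × ℕ × Bool

/-- the perfect exchange at two adjacent bins -/
def pstep : List NBin → ℕ → List NBin
  | (c, a, f) :: (b, d, g) :: t, 0 =>
    cond (Nat.blt b a && Nat.ble d a && Nat.ble b c && (Nat.blt c a || f) && (Nat.blt b d || g))
      ((b, c, false) :: (d, a, false) :: t) []
  | x :: t, i + 1 =>
    match pstep t i with
    | [] => []
    | y => x :: y
  | _, _ => []

/-- search for words of `N` perfect exchanges in normal form; `k` = number of the indices still to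
be tried at this node -/
def search : ℕ → ℕ → List NBin → Bool
  | 0, _, _ => true
  | N + 1, last, S =>
    [0, 1, 2, 3, 4].any fun i =>
      Nat.ble last (i + 1) &&
        match pstep S i with
        | [] => false
        | S' => search N i S'

def start6 : List NBin :=
  [(5, 5, true), (4, 4, true), (3, 3, true), (2, 2, true), (1, 1, true), (0, 0, true)]

theorem search_six : search 22 0 start6 = false := by decide +kernel

end Bq
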