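import Pool.Agent.BINQ.LowerEnd
import Pool.Agent.BINQ.Six

/-!
Six bins are not sorted by 22 exchanges: normal form of the word of indices, perfect exchanges,
completeness of the search.
-/

namespace Bq

/-- exchanges at distant indices commute -/
theorem fswp_comm {i j : ℕ} {L L1 L2 : List (Sym2 ℕ × Bool)} (h1 : FSwp i L L1)
    (h2 : FSwp j L1 L2) (hij : j + 2 ≤ i) : ∃ L', FSwp j L L' ∧ FSwp i L' L2 := by
  obtain ⟨A, B, p, x, q, z, f, g⟩ := h1
  generalize hM : A ++ (s(x, q), false) :: (s(p, z), false) :: B = M at h2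
  obtain ⟨A2, B2, p2, x2, q2, z2, f2, g2⟩ := h2
  obtain ⟨C, hC, hB⟩ : ∃ C, A = A2 ++ (s(p2, x2), f2) :: (s(q2, z2), g2) :: C ∧
      B2 = C ++ (s(x, q), false) :: (s(p, z), false) :: B := by
    have hM' : A ++ ((s(x, q), false) :: (s(p, z), false) :: B) =
        (A2 ++ [(s(p2, x2), f2), (s(q2, z2), g2)]) ++ B2 := by
      rw [hM]; simp
    rcases List.append_eq_append_iff.mp hM' with ⟨C, h1, h2⟩ | ⟨C, h1, h2⟩
    · have hl := congrArg List.length h1
      simp only [List.length_append, List.length_cons, List.length_nil] at hl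
      have hC : C = [] := List.length_eq_zero_iff.mp (by omega)
      subst hC
      refine ⟨[], ?_, ?_⟩
      · rw [← List.append_nil A, ← h1]
      · rw [List.nil_append] at h2
        rw [h2, List.nil_append]
    · exact ⟨C, by rw [h1]; simp, h2⟩
  subst hC
  subst hB
  refine ⟨(A2 ++ (s(x2, q2), false) :: (s(p2, z2), false) :: C) ++
    (s(p, x), f) :: (s(q, z), g) :: B, ?_, ?_⟩
  · have := FSwp.mk A2 (C ++ (s(p, x), f) :: (s(q, z), g) :: B) p2 x2 q2 z2 f2 g2
    simpa using this
  · have := FSwp.mk (A2 ++ (s(x2, q2), false) :: (s(p2, z2), false) :: C) B p x q z f g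
    have hl : (A2 ++ (s(x2, q2), false) :: (s(p2, z2), false) :: C).length =
        (A2 ++ (s(p2, x2), f2) :: (s(q2, z2), g2) :: C).length := by simp
    rw [hl] at this
    simpa using this

/-- words in normal form, all indices allowed after `last` -/
def NF : ℕ → List ℕ → Prop
  | _, [] => True
  | last, i :: w => last ≤ i + 1 ∧ NF i w

/-- insertion of an index in front of a word -/
def insw (i : ℕ) : List ℕ → List ℕ
  | [] => [i]
  | j :: w => if j + 2 ≤ i then j :: insw i w else i :: j :: w

theorem insw_length (i : ℕ) (w : List ℕ) : (insw i w).length = w.length + 1 := by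
  induction w with
  | nil => rfl
  | cons j w ih =>
    unfold insw
    split_ifs
    · simp [ih]
    · simp

theorem insw_run {i : ℕ} {w : List ℕ} {L L' : List (Sym2 ℕ × Bool)}
    (h : FRun (i :: w) L L') : FRun (insw i w) L L' := by
  induction w generalizing L L' with
  | nil => exact h
  | cons j w ih =>
    unfold insw
    split_ifs with hij
    · cases h with
      | cons h1 h2 =>
        cases h2 with
        | cons h3 h4 =>
          obtain ⟨M, h5, h6⟩ := fswp_comm h1 h3 hij
          exact FRun.cons h5 (ih (FRun.cons h6 h4))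
    · exact h

theorem insw_nf {i l : ℕ} {w : List ℕ} (hl : l ≤ i + 1) (h : NF l w) : NF l (insw i w) := by
  induction w generalizing l with
  | nil => exact ⟨hl, trivial⟩
  | cons j w ih =>
    obtain ⟨h1, h2⟩ := h
    unfold insw
    split_ifs with hij
    · exact ⟨h1, ih (by omega) h2⟩
    · exact ⟨hl, by omega, h2⟩

theorem exists_nf {w : List ℕ} {L L' : List (Sym2 ℕ × Bool)} (h : FRun w L L') :
    ∃ w', w'.length = w.length ∧ FRun w' L L' ∧ NF 0 w' := by
  induction h with
  | nil L => exact ⟨[], rfl, FRun.nil L, trivial⟩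
  | cons h1 _ ih =>
    obtain ⟨w', h2, h3, h4⟩ := ih
    exact ⟨insw _ w', by rw [insw_length, h2, List.length_cons], insw_run (FRun.cons h1 h3),
      insw_nf (by omega) h4⟩

/-- the bin with its labels in order -/
def nrm (y : Sym2 ℕ × Bool) : NBin :=
  (Sym2.lift ⟨fun a b => min a b, fun a b => Nat.min_comm a b⟩ y.1,
    Sym2.lift ⟨fun a b => max a b, fun a b => Nat.max_comm a b⟩ y.1, y.2)

theorem nrm_mk {a b : ℕ} (h : a ≤ b) (f : Bool) : nrm (s(a, b), f) = (a, b, f) := by
  simp [nrm, h]

theorem nrm_mk' {a b : ℕ} (h : b ≤ a) (f : Bool) : nrm (s(a, b), f) = (b, a, f) := by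
  simp [nrm, h]

theorem pstep_append (A : List NBin) (i : ℕ) (S : List NBin) (hS : pstep S i ≠ []) :
    pstep (A ++ S) (A.length + i) = A ++ pstep S i := by
  induction A with
  | nil => simp
  | cons x A ih =>
    have e : (x :: A).length + i = (A.length + i) + 1 := by simp; omega
    rw [e, List.cons_append]
    have hne : A ++ pstep S i ≠ [] := by simp [hS]
    have e2 : pstep (x :: (A ++ S)) (A.length + i + 1) =
        match pstep (A ++ S) (A.length + i) with
        | [] => []
        | y => x :: y := by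
      rcases A ++ S with _ | ⟨y, t⟩ <;> rfl
    rw [e2, ih]
    rcases h : A ++ pstep S i with _ | ⟨y, t⟩
    · exact absurd h hne
    · simp [h]

/-- an exchange with gain 6 is a perfect step -/
theorem pstep_of_gain {i : ℕ} {L L' : List (Sym2 ℕ × Bool)} (h : FSwp i L L') (hg : Good L)
    (hp : pot L' = pot L + 6) : pstep (L.map nrm) i = L'.map nrm := by
  obtain ⟨A, B, p, x, q, z, f, g⟩ := h
  have e := pot_exchange A B p x q z f g
  have h1 := term1 p x f (by
    intro hf
    obtain ⟨a, ha⟩ := hg (s(p, x), f) (by simp) hf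
    rcases Sym2.eq_iff.mp ha with ⟨h1, h2⟩ | ⟨h1, h2⟩ <;> rw [h1, h2])
  have h2 := term1 z q g (by
    intro hf
    obtain ⟨a, ha⟩ := hg (s(q, z), g) (by simp) hf
    rcases Sym2.eq_iff.mp ha with ⟨h1, h2⟩ | ⟨h1, h2⟩ <;> rw [h1, h2])
  rw [Sym2.eq_swap] at h2
  have h3 := term2 x q
  have h4 := term2 p z
  have h5 := term3 q p
  have c1 := h1.2 (by linarith [h1.1, h2.1, h3.1, h4.1, h5.1])
  have c2 := h2.2 (by linarith [h1.1, h2.1, h3.1, h4.1, h5.1])
  have c3 := h3.2 (by linarith [h1.1, h2.1, h3.1, h4.1, h5.1])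
  have c4 := h4.2 (by linarith [h1.1, h2.1, h3.1, h4.1, h5.1])
  have c5 := h5.2 (by linarith [h1.1, h2.1, h3.1, h4.1, h5.1])
  have hxp : x ≤ p := by rcases c1 with h | ⟨_, h⟩ <;> omega
  have hqz : q ≤ z := by rcases c2 with h | ⟨_, h⟩ <;> omega
  have hstep : pstep ((x, p, f) :: (q, z, g) :: B.map nrm) 0 =
      (q, x, false) :: (z, p, false) :: B.map nrm := by
    have hc : (Nat.blt q p && Nat.ble z p && Nat.ble q x && (Nat.blt x p || f) &&
        (Nat.blt q z || g)) = true := by
      have d1 : Nat.blt q p = true := by simp [Nat.blt_eq, c5]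
      have d2 : Nat.ble z p = true := Nat.ble_eq.mpr c4
      have d3 : Nat.ble q x = true := Nat.ble_eq.mpr c3
      have d4 : (Nat.blt x p || f) = true := by
        rcases c1 with h | ⟨h, _⟩
        · simp [Nat.blt_eq, h]
        · simp [h]
      have d5 : (Nat.blt q z || g) = true := by
        rcases c2 with h | ⟨h, _⟩
        · simp [Nat.blt_eq, h]
        · simp [h]
      rw [d1, d2, d3, d4, d5]; rfl
    show cond _ _ _ = _
    rw [hc]; rfl
  have := pstep_append (A.map nrm) 0 ((x, p, f) :: (q, z, g) :: B.map nrm) (by rw [hstep]; simp)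
  rw [hstep] at this
  simp only [List.length_map, Nat.add_zero] at this
  simp only [List.map_append, List.map_cons]
  rw [nrm_mk' hxp, nrm_mk hqz, this, nrm_mk' c3, nrm_mk' c4]

/-- completeness of the search -/
theorem search_complete {w : List ℕ} {L L' : List (Sym2 ℕ × Bool)} (h : FRun w L L') :
    ∀ last, NF last w → Good L → pot L' = pot L + 6 * w.length →
      (∀ i ∈ w, i < 5) → search w.length last (L.map nrm) = true := by
  induction h with
  | nil L => intro _ _ _ _ _; rfl
  | @cons i w L L1 L2 h1 h2 ih =>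
    intro last hnf hg hp hw
    have g1 := pot_swp h1 hg
    have g2 := pot_run h2 (good_swp h1 hg)
    push_cast [List.length_cons] at hp
    have e1 : pot L1 = pot L + 6 := by linarith
    have e2 : pot L2 = pot L1 + 6 * w.length := by linarith
    have e3 := ih i hnf.2 (good_swp h1 hg) e2 (fun j hj => hw j (by simp [hj]))
    have e4 := pstep_of_gain h1 hg e1
    have hi := hw i (by simp)
    have hne : L1.map nrm ≠ [] := by
      obtain ⟨A, B, p, x, q, z, f, g⟩ := h1
      simp
    simp only [List.length_cons, search, List.any_eq_true]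
    refine ⟨i, ?_, ?_⟩
    · interval_cases i <;> simp
    · rw [Bool.and_eq_true]
      refine ⟨Nat.ble_eq.mpr hnf.1, ?_⟩
      rw [e4]
      rcases hL1 : L1.map nrm with _ | ⟨y, t⟩
      · exact absurd hL1 hne
      · rw [hL1] at e3
        exact e3

theorem fswp_index {i : ℕ} {L L' : List (Sym2 ℕ × Bool)} (h : FSwp i L L') :
    i + 2 ≤ L.length ∧ L'.length = L.length := by
  obtain ⟨A, B, p, x, q, z, f, g⟩ := h
  simp

theorem frun_index {w : List ℕ} {L L' : List (Sym2 ℕ × Bool)} (h : FRun w L L') :
    ∀ i ∈ w, i + 2 ≤ L.length := by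
  induction h with
  | nil L => simp
  | cons h1 _ ih =>
    intro i hi
    obtain ⟨h2, h3⟩ := fswp_index h1
    rcases List.mem_cons.mp hi with rfl | hi
    · exact h2
    · rw [← h3]; exact ih i hi

theorem revF_six : (revF 6).map nrm = start6 := by
  simp [revF, revBins, start6, nrm, List.range_succ]

/-- the lower bound for six bins -/
theorem six_lower {N : ℕ} (h : Reach N (revBins 6) (sortedBins 6)) : 23 ≤ N := by
  have h0 := lower_bound (by norm_num) h
  have h0' : (Nat.choose (2 * 6) 2 + 2) / 3 = 22 := by decide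
  rw [h0'] at h0
  by_contra hc
  have hN : N = 22 := by omega
  subst hN
  obtain ⟨w, L', h1, h2, h3⟩ := reach_lift h (revF 6) (revF_fst 6)
  obtain ⟨w', h4, h5, h6⟩ := exists_nf h2
  have h7 := search_complete h5 0 h6 (good_revF 6) (by
    rw [pot_final (by norm_num) h5 h3, pot_revF, h4, h1]; norm_num) (by
    intro i hi
    have := frun_index h5 i hi
    have hl : (revF 6).length = 6 := by simp [revF, revBins]
    omega)
  rw [h4, h1, revF_six, search_six] at h7
  exact absurd h7 (by decide)

end Bq
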