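import Pool.Agent.BINQ.Worst

/-!
Moves of configurations and exchanges of lists of bins.
-/

namespace Bq

theorem toBins_getElem {n : ℕ} (c : Config n) (m : ℕ) (h : m < (toBins c).length) :
    (toBins c)[m] = s((c.lab (⟨m, by simpa [toBins_length] using h⟩, 0) : ℕ),
      (c.lab (⟨m, by simpa [toBins_length] using h⟩, 1) : ℕ)) := by
  simp [toBins]

/-- the two places of a bin -/
theorem exists_slots {n : ℕ} (c : Config n) (i : Fin n) (a b : ℕ)
    (h : s((c.lab (i, 0) : ℕ), (c.lab (i, 1) : ℕ)) = s(a, b)) :
    ∃ s s' : Fin 2, s ≠ s' ∧ (c.lab (i, s) : ℕ) = a ∧ (c.lab (i, s') : ℕ) = b := by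
  rcases Sym2.eq_iff.mp h with ⟨h1, h2⟩ | ⟨h1, h2⟩
  · exact ⟨0, 1, by decide, h1, h2⟩
  · exact ⟨1, 0, by decide, h2, h1⟩

theorem slot_pair {n : ℕ} (f : Fin n × Fin 2 → ℕ) (i : Fin n) (s s' : Fin 2) (h : s ≠ s') :
    s(f (i, 0), f (i, 1)) = s(f (i, s), f (i, s')) := by
  fin_cases s <;> fin_cases s' <;> simp_all [Sym2.eq_swap]

/-- the list of bins after an exchange -/
theorem toBins_swap {n : ℕ} (c d : Config n) (i j : Fin n) (s t s' t' : Fin 2)
    (hj : (j : ℕ) = (i : ℕ) + 1) (hs : s ≠ s') (ht : t ≠ t')
    (hd : ∀ p, d.lab p = c.lab (Equiv.swap (i, s) (j, t) p))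
    (A B : List (Sym2 ℕ)) (y z : Sym2 ℕ) (hA : A.length = i)
    (hc : toBins c = A ++ y :: z :: B) :
    toBins d = A ++ s((c.lab (i, s') : ℕ), (c.lab (j, t) : ℕ)) ::
      s((c.lab (i, s) : ℕ), (c.lab (j, t') : ℕ)) :: B := by
  have hij : i ≠ j := by
    intro h; rw [h] at hj; omega
  have hlen : (toBins c).length = (toBins d).length := by rw [toBins_length, toBins_length]
  have hlc : (toBins c).length = A.length + 2 + B.length := by
    rw [hc]; simp only [List.length_append, List.length_cons]; omega
  apply List.ext_getElem
  · rw [← hlen, hlc]; simp only [List.length_append, List.length_cons]; omega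
  · intro m h1 h2
    rw [toBins_getElem]
    have hm : m < n := by simpa [toBins_length] using h1
    rcases Nat.lt_trichotomy m i with hmi | hmi | hmi
    · -- left part
      have hne : ∀ r : Fin 2, Equiv.swap (i, s) (j, t) ((⟨m, hm⟩ : Fin n), r) = (⟨m, hm⟩, r) := by
        intro r
        apply Equiv.swap_apply_of_ne_of_ne
        · intro h
          have := congrArg (fun p : Fin n × Fin 2 => (p.1 : ℕ)) h
          simp at this; omega
        · intro h
          have := congrArg (fun p : Fin n × Fin 2 => (p.1 : ℕ)) h
          simp at this; omega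
      have e1 : (toBins c)[m]'(by rw [hlen]; exact h1) = A[m]'(by omega) := by
        simp only [hc]
        rw [List.getElem_append_left]
      rw [List.getElem_append_left (by omega), ← e1, toBins_getElem, hd, hd, hne, hne]
    · -- first bin
      have hmm : (⟨m, hm⟩ : Fin n) = i := Fin.ext hmi
      rw [List.getElem_append_right (by omega)]
      have : m - A.length = 0 := by omega
      simp only [this, List.getElem_cons_zero]
      rw [hmm, slot_pair (fun p => (d.lab p : ℕ)) i s' s hs.symm]
      simp only [hd]
      rw [Equiv.swap_apply_left, Equiv.swap_apply_of_ne_of_ne]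
      · intro h; exact hs (congrArg Prod.snd h).symm
      · intro h; exact hij (congrArg Prod.fst h)
    · rcases Nat.lt_or_ge m (i + 2) with hm2 | hm2
      · -- second bin
        have hmm : (⟨m, hm⟩ : Fin n) = j := Fin.ext (by simp; omega)
        rw [List.getElem_append_right (by omega)]
        have : m - A.length = 1 := by omega
        simp only [this, List.getElem_cons_succ, List.getElem_cons_zero]
        rw [hmm, slot_pair (fun p => (d.lab p : ℕ)) j t t' ht]
        simp only [hd]
        rw [Equiv.swap_apply_right, Equiv.swap_apply_of_ne_of_ne]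
        · intro h; exact hij (congrArg Prod.fst h).symm
        · intro h; exact ht (congrArg Prod.snd h).symm
      · -- right part
        have hne : ∀ r : Fin 2,
            Equiv.swap (i, s) (j, t) ((⟨m, hm⟩ : Fin n), r) = (⟨m, hm⟩, r) := by
          intro r
          apply Equiv.swap_apply_of_ne_of_ne
          · intro h
            have := congrArg (fun p : Fin n × Fin 2 => (p.1 : ℕ)) h
            simp at this; omega
          · intro h
            have := congrArg (fun p : Fin n × Fin 2 => (p.1 : ℕ)) h
            simp at this; omega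
        have hk : ∃ k, m - A.length = k + 1 + 1 := ⟨m - A.length - 2, by omega⟩
        obtain ⟨k, hk⟩ := hk
        have e1 : (toBins c)[m]'(by rw [hlen]; exact h1) = B[k]'(by omega) := by
          simp only [hc]
          rw [List.getElem_append_right (by omega)]
          simp only [hk, List.getElem_cons_succ]
        rw [List.getElem_append_right (by omega)]
        simp only [hk, List.getElem_cons_succ]
        rw [← e1, toBins_getElem, hd, hd, hne, hne]

theorem exists_other (s : Fin 2) : ∃ s' : Fin 2, s ≠ s' := by
  fin_cases s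
  · exact ⟨1, by decide⟩
  · exact ⟨0, by decide⟩

/-- a move is an exchange of the lists of bins -/
theorem Move.swp {n : ℕ} {c d : Config n} (h : Move c d) : Swp (toBins c) (toBins d) := by
  obtain ⟨i, j, s, t, hj, hd⟩ := h
  obtain ⟨s', hs⟩ := exists_other s
  obtain ⟨t', ht⟩ := exists_other t
  obtain ⟨A, y, z, B, hc, hA⟩ := exists_split (toBins c) i (by
    rw [toBins_length]; have := j.2; omega)
  rw [toBins_swap c d i j s t s' t' hj hs ht hd A B y z hA hc, hc]
  have hlen : (toBins c).length = A.length + 2 + B.length := by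
    rw [hc]; simp only [List.length_append, List.length_cons]; omega
  have e1 : (toBins c)[A.length]'(by omega) = y := by
    simp only [hc]
    rw [List.getElem_append_right le_rfl]
    simp
  have e2 : (toBins c)[A.length + 1]'(by omega) = z := by
    simp only [hc]
    rw [List.getElem_append_right (by omega)]
    simp
  rw [toBins_getElem] at e1 e2
  have hi : (⟨A.length, by rw [toBins_length] at hlen; omega⟩ : Fin n) = i := Fin.ext hA
  have hi2 : (⟨A.length + 1, by rw [toBins_length] at hlen; omega⟩ : Fin n) = j :=
    Fin.ext (by simp; omega)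
  rw [hi, slot_pair (fun p => (c.lab p : ℕ)) i s s' hs] at e1
  rw [hi2, slot_pair (fun p => (c.lab p : ℕ)) j t t' ht] at e2
  rw [← e1, ← e2]
  exact Swp.mk A B _ _ _ _

theorem Moves.reach {n N : ℕ} {c d : Config n} (h : Moves N c d) :
    Reach N (toBins c) (toBins d) := by
  induction h with
  | refl c => exact Reach.refl _
  | step h1 _ ih => exact Reach.step h1.swp ih

/-- an exchange of the list of bins comes from a move -/
theorem exists_move {n : ℕ} (c : Config n) (L' : List (Sym2 ℕ)) (h : Swp (toBins c) L') :
    ∃ d, Move c d ∧ toBins d = L' := by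
  generalize hL : toBins c = L at h
  obtain ⟨A, B, p, x, q, z⟩ := h
  have hlen : (toBins c).length = A.length + 2 + B.length := by
    rw [hL]; simp only [List.length_append, List.length_cons]; omega
  have hlen' := hlen
  rw [toBins_length] at hlen'
  have e1 : (toBins c)[A.length]'(by omega) = s(p, x) := by
    simp only [hL]
    rw [List.getElem_append_right le_rfl]
    simp
  have e2 : (toBins c)[A.length + 1]'(by omega) = s(q, z) := by
    simp only [hL]
    rw [List.getElem_append_right (by omega)]
    simp
  rw [toBins_getElem] at e1 e2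
  set i : Fin n := ⟨A.length, by omega⟩ with hi
  set j : Fin n := ⟨A.length + 1, by omega⟩ with hj
  obtain ⟨s, s', hs, h1, h2⟩ := exists_slots c i p x e1
  obtain ⟨t, t', ht, h3, h4⟩ := exists_slots c j q z e2
  refine ⟨c.perm (Equiv.swap (i, s) (j, t)), ⟨i, j, s, t, by simp [hi, hj], fun _ => rfl⟩, ?_⟩
  rw [toBins_swap c _ i j s t s' t' (by simp [hi, hj]) hs ht (fun _ => rfl) A B _ _
    (by simp [hi]) hL, h1, h2, h3, h4]

theorem exists_moves {N : ℕ} {L L' : List (Sym2 ℕ)} (h : Reach N L L') :
    ∀ {n : ℕ} (c : Config n), toBins c = L → ∃ d, Moves N c d ∧ toBins d = L' := by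
  induction h with
  | refl S => intro n c hc; exact ⟨c, Moves.refl c, hc⟩
  | step h1 _ ih =>
    intro n c hc
    subst hc
    obtain ⟨d, hd, hd'⟩ := exists_move c _ h1
    obtain ⟨e, he, he'⟩ := ih d hd'
    exact ⟨e, Moves.step hd he, he'⟩

end Bq
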