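import Pool.Agent.BINQ.Defs

/-!
The reversed configuration is a worst case (profiles and the comparator of two adjacent bins).
-/

namespace Bq

/-- the indicator of `k ≤ a` -/
def ind (k a : ℕ) : ℕ := if k ≤ a then 1 else 0

theorem ind_le (k a : ℕ) : ind k a ≤ 1 := by unfold ind; split_ifs <;> omega

theorem ind_mono {k a b : ℕ} (h : a ≤ b) : ind k a ≤ ind k b := by
  unfold ind; split_ifs <;> omega

/-- number of labels `≥ k` in an unordered pair -/
def cnt (k : ℕ) (z : Sym2 ℕ) : ℕ :=
  Sym2.lift ⟨fun a b => ind k a + ind k b, fun _ _ => Nat.add_comm _ _⟩ z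

@[simp] theorem cnt_mk (k a b : ℕ) : cnt k s(a, b) = ind k a + ind k b := rfl

/-- number of labels `≥ k` in the first `i` bins -/
def prof (L : List (Sym2 ℕ)) (k i : ℕ) : ℕ := ((L.take i).map (cnt k)).sum

/-- domination of profiles -/
def Dom (L M : List (Sym2 ℕ)) : Prop :=
  L.length = M.length ∧ ∀ k i, prof L k i ≤ prof M k i

theorem prof_append_left (A B : List (Sym2 ℕ)) (k i : ℕ) (h : i ≤ A.length) :
    prof (A ++ B) k i = prof A k i := by
  unfold prof
  rw [List.take_append_of_le_length h]

theorem prof_append_right (A B : List (Sym2 ℕ)) (k i : ℕ) :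
    prof (A ++ B) k (A.length + i) = prof A k A.length + prof B k i := by
  unfold prof
  rw [List.take_length_add_append, List.map_append, List.sum_append, List.take_length]

theorem prof_cons_succ (y : Sym2 ℕ) (B : List (Sym2 ℕ)) (k i : ℕ) :
    prof (y :: B) k (i + 1) = cnt k y + prof B k i := by
  simp [prof]

@[simp] theorem prof_zero (B : List (Sym2 ℕ)) (k : ℕ) : prof B k 0 = 0 := by
  simp [prof]

/-- the three ranges of the index of a profile around two adjacent bins -/
theorem prof_split (A B : List (Sym2 ℕ)) (y z : Sym2 ℕ) (k i : ℕ) :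
    (i ≤ A.length ∧ prof (A ++ y :: z :: B) k i = prof A k i) ∨
    (i = A.length + 1 ∧ prof (A ++ y :: z :: B) k i = prof A k A.length + cnt k y) ∨
    (∃ j, i = A.length + 2 + j ∧
      prof (A ++ y :: z :: B) k i = prof A k A.length + (cnt k y + cnt k z) + prof B k j) := by
  rcases Nat.lt_or_ge A.length i with h | h
  · rcases Nat.lt_or_ge (A.length + 1) i with h' | h'
    · right; right
      obtain ⟨j, rfl⟩ : ∃ j, i = A.length + 2 + j := ⟨i - (A.length + 2), by omega⟩
      refine ⟨j, rfl, ?_⟩
      have : A.length + 2 + j = A.length + (j + 1 + 1) := by omega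
      rw [this, prof_append_right, prof_cons_succ, prof_cons_succ]
      omega
    · right; left
      have hi : i = A.length + 1 := by omega
      refine ⟨hi, ?_⟩
      rw [hi, prof_append_right]
      have : (1 : ℕ) = 0 + 1 := rfl
      rw [this, prof_cons_succ]
      simp
  · left
    exact ⟨h, prof_append_left _ _ _ _ h⟩

theorem exists_ordered (y : Sym2 ℕ) : ∃ u v, u ≤ v ∧ y = s(u, v) := by
  induction y with
  | _ a b =>
    rcases Nat.le_total a b with h | h
    · exact ⟨a, b, h, rfl⟩
    · exact ⟨b, a, h, Sym2.eq_swap⟩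

/-- splitting a list at two adjacent entries -/
theorem exists_split (L : List (Sym2 ℕ)) (m : ℕ) (h : m + 2 ≤ L.length) :
    ∃ A y z B, L = A ++ y :: z :: B ∧ A.length = m := by
  refine ⟨L.take m, L[m], L[m + 1], L.drop (m + 2), ?_, ?_⟩
  · have h1 : L.drop m = L[m] :: L.drop (m + 1) := List.drop_eq_getElem_cons (by omega)
    have h2 : L.drop (m + 1) = L[m + 1] :: L.drop (m + 2) :=
      List.drop_eq_getElem_cons (by omega)
    rw [← h2, ← h1, List.take_append_drop]
  · rw [List.length_take]; omega

theorem dom_step {L M M' : List (Sym2 ℕ)} (hd : Dom L M) (hs : Swp M M') :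
    ∃ L', (L' = L ∨ Swp L L') ∧ Dom L' M' := by
  obtain ⟨hlen, hP⟩ := hd
  obtain ⟨A₀, B₀, p, x, q, z⟩ := hs
  have hlM : (A₀ ++ s(p, x) :: s(q, z) :: B₀).length = A₀.length + 2 + B₀.length := by
    simp only [List.length_append, List.length_cons]; omega
  obtain ⟨A, y₁, y₂, B, hL, hA⟩ := exists_split L A₀.length (by omega)
  obtain ⟨u, v, huv, rfl⟩ := exists_ordered y₁
  obtain ⟨w, t, hwt, rfl⟩ := exists_ordered y₂
  subst hL
  -- the inequalities between the profiles
  have key : ∀ k, prof A k A.length ≤ prof A₀ k A₀.length ∧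
      prof A k A.length + cnt k s(u, v) ≤ prof A₀ k A₀.length + cnt k s(p, x) ∧
      prof A k A.length + (cnt k s(u, v) + cnt k s(w, t)) ≤
        prof A₀ k A₀.length + (cnt k s(p, x) + cnt k s(q, z)) := by
    intro k
    have e0 := hP k A.length
    have e1 := hP k (A.length + 1)
    have e2 := hP k (A.length + 2)
    refine ⟨?_, ?_, ?_⟩
    · rw [prof_append_left _ _ _ _ le_rfl, hA, prof_append_left _ _ _ _ le_rfl] at e0
      rw [hA]; exact e0
    · rw [prof_append_right A _ k 1, hA, prof_append_right A₀ _ k 1] at e1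
      rw [prof_cons_succ _ _ _ 0, prof_cons_succ _ _ _ 0] at e1
      simpa [hA] using e1
    · rw [prof_append_right A _ k 2, hA, prof_append_right A₀ _ k 2] at e2
      rw [prof_cons_succ _ _ _ 1, prof_cons_succ _ _ _ 1, prof_cons_succ _ _ _ 0,
        prof_cons_succ _ _ _ 0] at e2
      simpa [hA] using e2
  have hlenB : B.length = B₀.length := by
    simp only [List.length_append, List.length_cons] at hlen
    omega
  -- it is enough to compare in the middle
  have reduce : ∀ y y' : Sym2 ℕ,
      (∀ k, cnt k y + cnt k y' = cnt k s(u, v) + cnt k s(w, t)) →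
      (∀ k, prof A k A.length + cnt k y ≤ prof A₀ k A₀.length + cnt k s(x, q)) →
      Dom (A ++ y :: y' :: B) (A₀ ++ s(x, q) :: s(p, z) :: B₀) := by
    intro y y' h1 h2
    refine ⟨by simp only [List.length_append, List.length_cons]; omega, ?_⟩
    intro k i
    have hold := hP k i
    rcases prof_split A B s(u, v) s(w, t) k i with ⟨hi, ha⟩ | ⟨hi, ha⟩ | ⟨j, hi, ha⟩
    · rcases prof_split A₀ B₀ s(p, x) s(q, z) k i with ⟨hi', hb⟩ | ⟨hi', hb⟩ | ⟨j', hi', hb⟩
      · rw [prof_append_left _ _ _ _ hi, prof_append_left _ _ _ _ hi']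
        rw [ha, hb] at hold
        exact hold
      · omega
      · omega
    · subst hi
      rw [hA, prof_append_right A₀ _ k 1, ← hA, prof_append_right A _ k 1, hA,
        prof_cons_succ _ _ _ 0, prof_cons_succ _ _ _ 0]
      have := h2 k
      simp only [prof_zero, hA] at *
      omega
    · subst hi
      have e1 := prof_append_right A (y :: y' :: B) k (j + 1 + 1)
      have e2 := prof_append_right A (s(u, v) :: s(w, t) :: B) k (j + 1 + 1)
      have e3 := prof_append_right A₀ (s(p, x) :: s(q, z) :: B₀) k (j + 1 + 1)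
      have e4 := prof_append_right A₀ (s(x, q) :: s(p, z) :: B₀) k (j + 1 + 1)
      simp only [prof_cons_succ] at e1 e2 e3 e4
      have hj : A.length + 2 + j = A.length + (j + 1 + 1) := by omega
      have hj' : A₀.length + (j + 1 + 1) = A.length + (j + 1 + 1) := by omega
      rw [hj'] at e3 e4
      rw [hj] at hold ⊢
      have := h1 k
      simp only [cnt_mk] at *
      omega
  rcases Nat.lt_or_ge w v with hwv | hwv
  · refine ⟨A ++ s(u, w) :: s(v, t) :: B, Or.inr ?_, reduce _ _ ?_ ?_⟩
    · have := Swp.mk A B v u w t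
      rwa [Sym2.eq_swap (a := v) (b := u)] at this
    · intro k
      simp only [cnt_mk]; omega
    · intro k
      obtain ⟨k0, k1, k2⟩ := key k
      clear reduce key hP
      simp only [cnt_mk] at k1 k2 ⊢
      have i1 := ind_mono (k := k) huv
      have i2 := ind_mono (k := k) hwt
      have i3 := ind_mono (k := k) hwv.le
      have j1 := ind_le k p
      have j2 := ind_le k z
      have j3 := ind_le k v
      have j4 := ind_le k t
      rcases Nat.lt_or_ge (ind k v) 1 with h1 | h1 <;>
        rcases Nat.lt_or_ge (ind k w) 1 with h2 | h2 <;> omega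
  · refine ⟨A ++ s(u, v) :: s(w, t) :: B, Or.inl rfl, reduce _ _ (fun _ => rfl) ?_⟩
    intro k
    obtain ⟨k0, k1, k2⟩ := key k
    clear reduce key hP
    simp only [cnt_mk] at k1 k2 ⊢
    have i1 := ind_mono (k := k) huv
    have i2 := ind_mono (k := k) hwt
    have i3 := ind_mono (k := k) hwv
    have j1 := ind_le k p
    have j2 := ind_le k z
    have j3 := ind_le k v
    have j4 := ind_le k t
    rcases Nat.lt_or_ge (ind k v) 1 with h1 | h1 <;> omega

theorem dom_reach {N : ℕ} {M M' : List (Sym2 ℕ)} (hr : Reach N M M') :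
    ∀ L, Dom L M → ∃ N' L', N' ≤ N ∧ Reach N' L L' ∧ Dom L' M' := by
  induction hr with
  | refl S => intro L hL; exact ⟨0, L, le_rfl, Reach.refl L, hL⟩
  | step hs _ ih =>
    intro L hL
    obtain ⟨L', h1, h2⟩ := dom_step hL hs
    obtain ⟨N', L'', h3, h4, h5⟩ := ih L' h2
    rcases h1 with rfl | h1
    · exact ⟨N', L'', by omega, h4, h5⟩
    · exact ⟨N' + 1, L'', by omega, Reach.step h1 h4, h5⟩

end Bq
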